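import Mathlib
import Pool.Graph.R_seed8.TwoWell.QSide

set_option autoImplicit false

/-!
# Two quadratic wells in the plane: `QW < RW` on an open set of data, for every `m ≥ 11`

The base pair of wells on `2 × 11` matrices is the one of the library.
-/

namespace Pool.Agent.Results.MP_0febd9_an.OpenSetOfWells

open MeasureTheory Matrix

/-- The space `𝒮_m` of real `2 × m` matrices. -/
abbrev Mat (m : ℕ) : Type := Matrix (Fin 2) (Fin m) ℝ

/-- The inner product `A · B = Tr (A Bᵀ)`. -/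
noncomputable def ip {m : ℕ} (A B : Mat m) : ℝ := Matrix.trace (A * Bᵀ)

/-- The data of a two-well energy on `𝒮_m`. -/
structure Wells (m : ℕ) where
  /-- moduli of the first well -/
  L₁ : Mat m →ₗ[ℝ] Mat m
  /-- moduli of the second well -/
  L₂ : Mat m →ₗ[ℝ] Mat m
  /-- centre of the first well -/
  F₁ : Mat m
  /-- centre of the second well -/
  F₂ : Mat m
  /-- height of the first well -/
  k₁ : ℝ
  /-- height of the second well -/
  k₂ : ℝ

/-- A linear map on `𝒮_m` is self-adjoint and positive definite. -/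
def SelfAdjPosDef {m : ℕ} (L : Mat m →ₗ[ℝ] Mat m) : Prop :=
  (∀ A B : Mat m, ip A (L B) = ip (L A) B) ∧ ∀ A : Mat m, A ≠ 0 → 0 < ip A (L A)

/-- The standing assumption on the data: both moduli are self-adjoint and positive definite. -/
def Wells.Admissible {m : ℕ} (D : Wells m) : Prop := SelfAdjPosDef D.L₁ ∧ SelfAdjPosDef D.L₂

/-- The two-well energy `W(H) = min_j ((H - F_j) · L_j (H - F_j) + k_j)`. -/
noncomputable def Wells.energy {m : ℕ} (D : Wells m) (H : Mat m) : ℝ :=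
  min (ip (H - D.F₁) (D.L₁ (H - D.F₁)) + D.k₁) (ip (H - D.F₂) (D.L₂ (H - D.F₂)) + D.k₂)

/-- The gradient matrix `{∇u}_{ij} = ∂u_j/∂x_i`. -/
noncomputable def grad {m : ℕ} (u : (Fin 2 → ℝ) → (Fin m → ℝ)) (x : Fin 2 → ℝ) : Mat m :=
  Matrix.of (fun (i : Fin 2) (j : Fin m) => fderiv ℝ u x (Pi.single i (1 : ℝ)) j)

/-- `u` is a smooth potential, periodic with respect to `ℤ²`. -/
def SmoothPeriodic {m : ℕ} (u : (Fin 2 → ℝ) → (Fin m → ℝ)) : Prop :=
  ContDiff ℝ ((⊤ : ℕ∞) : WithTop ℕ∞) u ∧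
    ∀ (x : Fin 2 → ℝ) (z : Fin 2 → ℤ), u (x + fun i => (z i : ℝ)) = u x

/-- The unit cell. -/
def cell : Set (Fin 2 → ℝ) := Set.univ.pi (fun _ : Fin 2 => Set.Icc (0 : ℝ) 1)

/-- The quasiconvexification of `W` at `F`. -/
noncomputable def QW {m : ℕ} (W : Mat m → ℝ) (F : Mat m) : ℝ :=
  sInf {q : ℝ | ∃ u, SmoothPeriodic u ∧ q = ∫ x in cell, W (F + grad u x)}

/-- Rank-one convexity. -/
def RankOneConvex {m : ℕ} (g : Mat m → ℝ) : Prop :=
  ∀ (A : Mat m) (a : Fin 2 → ℝ) (b : Fin m → ℝ),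
    ConvexOn ℝ Set.univ (fun t : ℝ => g (A + t • Matrix.vecMulVec a b))

/-- The rank-one convexification of `W` at `F`. -/
noncomputable def RW {m : ℕ} (W : Mat m → ℝ) (F : Mat m) : ℝ :=
  sSup {r : ℝ | ∃ g : Mat m → ℝ, RankOneConvex g ∧ (∀ H, g H ≤ W H) ∧ r = g F}

/-- `D'` differs from `D` by at most `ε` in all its entries (in the Euclidean norm of `𝒮_m` and
the operator norm it induces). -/
def Wells.Close {m : ℕ} (ε : ℝ) (D D' : Wells m) : Prop :=
  (∀ A : Mat m, ip (D'.L₁ A - D.L₁ A) (D'.L₁ A - D.L₁ A) ≤ ε ^ 2 * ip A A) ∧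
  (∀ A : Mat m, ip (D'.L₂ A - D.L₂ A) (D'.L₂ A - D.L₂ A) ≤ ε ^ 2 * ip A A) ∧
  ip (D'.F₁ - D.F₁) (D'.F₁ - D.F₁) ≤ ε ^ 2 ∧ ip (D'.F₂ - D.F₂) (D'.F₂ - D.F₂) ≤ ε ^ 2 ∧
  |D'.k₁ - D.k₁| ≤ ε ∧ |D'.k₂ - D.k₂| ≤ ε

/-! ## The inner product -/

theorem ip_sum {m : ℕ} (A B : Mat m) : ip A B = ∑ i, ∑ j, A i j * B i j := by
  simp [ip, Matrix.trace, Matrix.mul_apply, Matrix.transpose_apply]

theorem ip_add_right {m : ℕ} (A B C : Mat m) : ip A (B + C) = ip A B + ip A C := by
  simp only [ip_sum, Matrix.add_apply, mul_add, Finset.sum_add_distrib]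

theorem ip_add_left {m : ℕ} (A B C : Mat m) : ip (A + B) C = ip A C + ip B C := by
  simp only [ip_sum, Matrix.add_apply, add_mul, Finset.sum_add_distrib]

theorem ip_sub_right {m : ℕ} (A B C : Mat m) : ip A (B - C) = ip A B - ip A C := by
  simp only [ip_sum, Matrix.sub_apply, mul_sub, Finset.sum_sub_distrib]

theorem ip_sub_left {m : ℕ} (A B C : Mat m) : ip (A - B) C = ip A C - ip B C := by
  simp only [ip_sum, Matrix.sub_apply, sub_mul, Finset.sum_sub_distrib]

theorem ip_comm {m : ℕ} (A B : Mat m) : ip A B = ip B A := by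
  simp only [ip_sum, mul_comm]

theorem ip_smul_left {m : ℕ} (c : ℝ) (A B : Mat m) : ip (c • A) B = c * ip A B := by
  simp only [ip_sum, Matrix.smul_apply, smul_eq_mul, Finset.mul_sum, mul_assoc]

theorem ip_smul_right {m : ℕ} (c : ℝ) (A B : Mat m) : ip A (c • B) = c * ip A B := by
  rw [ip_comm, ip_smul_left, ip_comm]

theorem ip_self_nonneg {m : ℕ} (A : Mat m) : 0 ≤ ip A A := by
  rw [ip_sum]
  exact Finset.sum_nonneg fun i _ => Finset.sum_nonneg fun j _ => mul_self_nonneg _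

theorem ip_self_pos {m : ℕ} {A : Mat m} (h : A ≠ 0) : 0 < ip A A := by
  refine lt_of_le_of_ne (ip_self_nonneg A) fun h0 => h ?_
  rw [ip_sum] at h0
  have h1 := (Finset.sum_eq_zero_iff_of_nonneg (fun i _ =>
    Finset.sum_nonneg fun j _ => mul_self_nonneg (A i j))).1 h0.symm
  ext i j
  have h2 := (Finset.sum_eq_zero_iff_of_nonneg (fun j _ => mul_self_nonneg (A i j))).1
    (h1 i (Finset.mem_univ i)) j (Finset.mem_univ j)
  exact mul_self_eq_zero.1 h2

/-- Cauchy–Schwarz with a parameter -/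
theorem ip_le {m : ℕ} (A B : Mat m) {t : ℝ} (ht : 0 < t) :
    |2 * ip A B| ≤ t * ip A A + 1 / t * ip B B := by
  have ht' : t ≠ 0 := ht.ne'
  have h1 := ip_self_nonneg (t • A + B)
  have h2 := ip_self_nonneg (t • A - B)
  simp only [ip_add_left, ip_add_right, ip_sub_left, ip_sub_right, ip_smul_left,
    ip_smul_right, ip_comm B A] at h1 h2
  rw [abs_le]
  have e : t * ip A A + 1 / t * ip B B = (t * (t * ip A A) + ip B B) / t := by
    field_simp
  rw [e]
  constructor
  · rw [← sub_nonneg]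
    have : (t * (t * ip A A) + ip B B) / t = (t * (t * ip A A) + ip B B) / t := rfl
    have h3 : 2 * ip A B - -((t * (t * ip A A) + ip B B) / t) =
      (t * (t * ip A A) + 2 * t * ip A B + ip B B) / t := by field_simp; ring
    rw [h3]
    exact div_nonneg (by linarith) ht.le
  · rw [le_div_iff₀ ht]
    linarith

/-! ## Bounds for quadratic forms -/

theorem continuous_ip {m : ℕ} {X : Type} [TopologicalSpace X] {f g : X → Mat m}
    (hf : Continuous f) (hg : Continuous g) : Continuous fun x => ip (f x) (g x) := by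
  simp only [ip_sum]
  exact continuous_finsetSum _ fun i _ => continuous_finsetSum _ fun j _ =>
    (hf.matrix_elem i j).mul (hg.matrix_elem i j)

theorem continuous_lin {m : ℕ} (L : Mat m →ₗ[ℝ] Mat m) : Continuous L :=
  L.continuous_of_finiteDimensional

theorem sphere_compact (m : ℕ) : IsCompact {A : Mat m | ip A A = 1} := by
  have hsub : {A : Mat m | ip A A = 1} ⊆
      Set.pi Set.univ (fun _ : Fin 2 => Set.pi Set.univ (fun _ : Fin m => Set.Icc (-1 : ℝ) 1)) := by
    intro A hA i _ j _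
    have h1 : A i j * A i j ≤ 1 := by
      rw [← show ip A A = 1 from hA, ip_sum]
      refine (Finset.single_le_sum (f := fun j => A i j * A i j) (fun j _ => mul_self_nonneg _)
        (Finset.mem_univ j)).trans ?_
      exact Finset.single_le_sum (f := fun i => ∑ j, A i j * A i j)
        (fun i _ => Finset.sum_nonneg fun j _ => mul_self_nonneg _) (Finset.mem_univ i)
    exact ⟨by nlinarith, by nlinarith⟩
  refine IsCompact.of_isClosed_subset ?_ ?_ hsub
  · exact isCompact_univ_pi fun _ => isCompact_univ_pi fun _ => isCompact_Icc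
  · exact isClosed_eq (continuous_ip continuous_id continuous_id) continuous_const

theorem normalise {m : ℕ} {A : Mat m} (h : A ≠ 0) :
    ip ((1 / Real.sqrt (ip A A)) • A) ((1 / Real.sqrt (ip A A)) • A) = 1 := by
  have h0 := ip_self_pos h
  have h1 : Real.sqrt (ip A A) ≠ 0 := (Real.sqrt_pos.2 h0).ne'
  rw [ip_smul_left, ip_smul_right]
  have h2 := Real.mul_self_sqrt h0.le
  field_simp
  rw [sq, h2]

theorem aux {s v x : ℝ} (hs : 0 < s) (h : s * s = v) : 1 / s * (1 / s * x) = x / v := by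
  subst h
  field_simp

theorem lower {m : ℕ} {L : Mat m →ₗ[ℝ] Mat m} (hL : SelfAdjPosDef L) :
    ∃ c : ℝ, 0 < c ∧ ∀ A, c * ip A A ≤ ip A (L A) := by
  by_cases hne : ({A : Mat m | ip A A = 1}).Nonempty
  · obtain ⟨A₀, hA₀, hmin⟩ := (sphere_compact m).exists_isMinOn hne
      (continuous_ip continuous_id (continuous_lin L)).continuousOn
    have h0 : A₀ ≠ 0 := by
      rintro rfl
      have : ip (0 : Mat m) 0 = 1 := hA₀
      simp [ip_sum] at this
    refine ⟨ip A₀ (L A₀), hL.2 _ h0, fun A => ?_⟩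
    by_cases hA : A = 0
    · subst hA; simp [ip_sum]
    · have h1 := hmin (show _ ∈ {A : Mat m | ip A A = 1} from normalise hA)
      have h2 : ip A₀ (L A₀) ≤ ip ((1 / Real.sqrt (ip A A)) • A)
        (L ((1 / Real.sqrt (ip A A)) • A)) := h1
      have h3 := ip_self_pos hA
      rw [map_smul, ip_smul_left, ip_smul_right] at h2
      have h4 := Real.mul_self_sqrt h3.le
      have h5 := Real.sqrt_pos.2 h3
      rw [aux h5 h4, le_div_iff₀ h3] at h2
      exact h2
  · refine ⟨1, one_pos, fun A => ?_⟩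
    by_cases hA : A = 0
    · subst hA; simp [ip_sum]
    · exact absurd ⟨_, normalise hA⟩ hne

theorem upper {m : ℕ} (L : Mat m →ₗ[ℝ] Mat m) :
    ∃ C : ℝ, 1 ≤ C ∧ ∀ A, ip (L A) (L A) ≤ C * ip A A := by
  by_cases hne : ({A : Mat m | ip A A = 1}).Nonempty
  · obtain ⟨A₀, hA₀, hmax⟩ := (sphere_compact m).exists_isMaxOn hne
      (continuous_ip (continuous_lin L) (continuous_lin L)).continuousOn
    refine ⟨max 1 (ip (L A₀) (L A₀)), le_max_left _ _, fun A => ?_⟩
    refine le_trans ?_ (mul_le_mul_of_nonneg_right (le_max_right _ _) (ip_self_nonneg A))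
    by_cases hA : A = 0
    · subst hA; simp [ip_sum]
    · have h1 := hmax (show _ ∈ {A : Mat m | ip A A = 1} from normalise hA)
      have h2 : ip (L ((1 / Real.sqrt (ip A A)) • A)) (L ((1 / Real.sqrt (ip A A)) • A)) ≤
        ip (L A₀) (L A₀) := h1
      have h3 := ip_self_pos hA
      rw [map_smul, ip_smul_left, ip_smul_right] at h2
      have h4 := Real.mul_self_sqrt h3.le
      have h5 := Real.sqrt_pos.2 h3
      rw [aux h5 h4, div_le_iff₀ h3] at h2
      exact h2
  · refine ⟨1, le_rfl, fun A => ?_⟩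
    by_cases hA : A = 0
    · subst hA; simp [ip_sum]
    · exact absurd ⟨_, normalise hA⟩ hne

/-- the effect of a small shift of the argument -/
theorem shift {m : ℕ} {L : Mat m →ₗ[ℝ] Mat m} (hsym : ∀ A B : Mat m, ip A (L B) = ip (L A) B)
    {c C ε : ℝ} (hc : 0 < c) (hc1 : c ≤ 1) (hC : 1 ≤ C) (hlow : ∀ A, c * ip A A ≤ ip A (L A))
    (hup : ∀ A, ip (L A) (L A) ≤ C * ip A A) (hε0 : 0 < ε) (hε1 : ε ≤ 1 / 1000000)
    (hε : ε * (1000000 * C) ≤ c) (A B : Mat m) (hB : ip B B ≤ 4 * ε ^ 2) :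
    ip (A + B) (L (A + B)) ≤ 1001 / 1000 * ip A (L A) + 1 / 1000 := by
  have hC0 : 0 < C := by linarith
  have hb := ip_self_nonneg B
  have ha := ip_self_nonneg A
  have e1 : ip (A + B) (L (A + B)) = ip A (L A) + 2 * ip A (L B) + ip B (L B) := by
    rw [map_add, ip_add_left, ip_add_right, ip_add_right, hsym B A, ip_comm (L B) A]
    ring
  have t0 : 0 < c / 1000 := by positivity
  have h1 := (abs_le.1 (ip_le A (L B) t0)).2
  have h2 := (abs_le.1 (ip_le B (L B) one_pos)).2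
  have h3 := hlow A
  have h4 := hup B
  have h5 : 1 / (c / 1000) * ip (L B) (L B) ≤ 1 / (c / 1000) * (C * (4 * ε ^ 2)) := by
    refine mul_le_mul_of_nonneg_left (h4.trans ?_) (by positivity)
    exact mul_le_mul_of_nonneg_left hB hC0.le
  have h6 : 1 / (c / 1000) * (C * (4 * ε ^ 2)) ≤ 4 / 1000 * ε := by
    rw [one_div, inv_mul_le_iff₀ t0]
    nlinarith [mul_le_mul_of_nonneg_left hε hε0.le]
  have h7 : C * ip B B ≤ C * (4 * ε ^ 2) := mul_le_mul_of_nonneg_left hB hC0.le
  have h8 : C * (4 * ε ^ 2) ≤ 4 / 1000000 * (ε * c) := by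
    nlinarith [mul_le_mul_of_nonneg_left hε hε0.le]
  have hc2 : ip B B ≤ C * ip B B := by nlinarith
  have h9 : ε * c ≤ ε := by nlinarith
  rw [e1]
  rw [one_mul, div_one, one_mul] at h2
  linarith

/-- the effect of a small change of the moduli and a small shift of the argument -/
theorem perturb {m : ℕ} {L L' : Mat m →ₗ[ℝ] Mat m}
    (hsym : ∀ A B : Mat m, ip A (L B) = ip (L A) B)
    {c C ε : ℝ} (hc : 0 < c) (hc1 : c ≤ 1) (hC : 1 ≤ C) (hlow : ∀ A, c * ip A A ≤ ip A (L A))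
    (hup : ∀ A, ip (L A) (L A) ≤ C * ip A A) (hε0 : 0 < ε) (hε1 : ε ≤ 1 / 1000000)
    (hε : ε * (1000000 * C) ≤ c)
    (hL' : ∀ A, ip (L' A - L A) (L' A - L A) ≤ ε ^ 2 * ip A A)
    (A B : Mat m) (hB : ip B B ≤ 4 * ε ^ 2) :
    ip (A + B) (L' (A + B)) ≤ 101 / 100 * ip A (L A) + 1 / 200 ∧
      ip A (L A) ≤ 101 / 100 * ip (A + B) (L' (A + B)) + 1 / 200 := by
  have h1 := shift hsym hc hc1 hC hlow hup hε0 hε1 hε A B hB
  have h2 := shift hsym hc hc1 hC hlow hup hε0 hε1 hε (A + B) (-B) (by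
    rw [show (-B : Mat m) = (-1 : ℝ) • B by simp, ip_smul_left, ip_smul_right]
    linarith)
  rw [add_neg_cancel_right] at h2
  set X := A + B with hX
  have e : ip X (L' X) = ip X (L X) + ip X (L' X - L X) := by rw [ip_sub_right]; ring
  have h3 := ip_le X (L' X - L X) hε0
  have h4 : 1 / ε * ip (L' X - L X) (L' X - L X) ≤ ε * ip X X := by
    rw [one_div, inv_mul_le_iff₀ hε0]
    refine (hL' X).trans (le_of_eq ?_)
    ring
  obtain ⟨h5, h6⟩ := abs_le.1 h3
  have h7 : 1000000 * (ε * ip X X) ≤ ip X (L X) := by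
    refine le_trans ?_ (hlow X)
    have hXX := ip_self_nonneg X
    have : ε * 1000000 ≤ c := by nlinarith
    nlinarith
  have h8 := ip_self_nonneg X
  have h9 : 0 ≤ ε * ip X X := mul_nonneg hε0.le h8
  have hA : 0 ≤ ip A (L A) := (mul_nonneg hc.le (ip_self_nonneg A)).trans (hlow A)
  constructor
  · rw [e]; linarith
  · rw [e]; linarith

/-! ## Adding columns -/

section Pad

variable {r : ℕ}

/-- the first eleven columns -/
def res : Mat (11 + r) →ₗ[ℝ] Mat 11 where
  toFun A := Matrix.of fun i j => A i (Fin.castAdd r j)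
  map_add' _ _ := rfl
  map_smul' _ _ := rfl

/-- padding by zero columns -/
def ext : Mat 11 →ₗ[ℝ] Mat (11 + r) where
  toFun A := Matrix.of fun i => Fin.append (A i) (fun _ => (0 : ℝ))
  map_add' A B := by
    ext i j
    refine Fin.addCases (fun j => ?_) (fun j => ?_) j <;> simp
  map_smul' c A := by
    ext i j
    refine Fin.addCases (fun j => ?_) (fun j => ?_) j <;> simp

theorem res_apply (A : Mat (11 + r)) (i : Fin 2) (j : Fin 11) :
    res A i j = A i (Fin.castAdd r j) := rfl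

theorem ext_left (A : Mat 11) (i : Fin 2) (j : Fin 11) :
    (ext A : Mat (11 + r)) i (Fin.castAdd r j) = A i j := by simp [ext]

theorem ext_right (A : Mat 11) (i : Fin 2) (j : Fin r) :
    (ext A : Mat (11 + r)) i (Fin.natAdd 11 j) = 0 := by simp [ext]

theorem res_ext (A : Mat 11) : res (ext A : Mat (11 + r)) = A := by
  ext i j
  rw [res_apply, ext_left]

theorem ip_ext (A : Mat (11 + r)) (B : Mat 11) : ip A (ext B) = ip (res A) B := by
  simp only [ip_sum, Fin.sum_univ_add, ext_left, ext_right, res_apply, mul_zero,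
    Finset.sum_const_zero, add_zero]

theorem ext_ip (A : Mat (11 + r)) (B : Mat 11) : ip (ext B) A = ip B (res A) := by
  rw [ip_comm, ip_ext, ip_comm]

/-- the moduli with the identity on the new columns -/
noncomputable def padL (L : Mat 11 →ₗ[ℝ] Mat 11) : Mat (11 + r) →ₗ[ℝ] Mat (11 + r) :=
  ext ∘ₗ L ∘ₗ res + (LinearMap.id - ext ∘ₗ res)

theorem padL_apply (L : Mat 11 →ₗ[ℝ] Mat 11) (A : Mat (11 + r)) :
    padL L A = ext (L (res A)) + (A - ext (res A)) := rfl

theorem ip_padL (L : Mat 11 →ₗ[ℝ] Mat 11) (A B : Mat (11 + r)) :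
    ip A (padL L B) = ip (res A) (L (res B)) + (ip A B - ip (res A) (res B)) := by
  rw [padL_apply, ip_add_right, ip_sub_right, ip_ext, ip_ext]

theorem tail_nonneg (A : Mat (11 + r)) : 0 ≤ ip A A - ip (res A) (res A) := by
  have h := ip_self_nonneg (A - ext (res A))
  rw [ip_sub_left, ip_sub_right, ip_sub_right, ip_ext, ext_ip, ext_ip, res_ext] at h
  linarith

theorem padL_spd {L : Mat 11 →ₗ[ℝ] Mat 11} (hL : SelfAdjPosDef L) :
    SelfAdjPosDef (padL L : Mat (11 + r) →ₗ[ℝ] Mat (11 + r)) := by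
  refine ⟨fun A B => ?_, fun A hA => ?_⟩
  · rw [ip_comm (padL L A) B, ip_padL, ip_padL, hL.1, ip_comm (L (res A)), ip_comm B A,
      ip_comm (res B) (res A)]
  · rw [ip_padL]
    have h1 := tail_nonneg A
    by_cases h : res A = 0
    · rw [h]
      have h2 := ip_self_pos hA
      have h3 : ip (0 : Mat 11) (L 0) = 0 := by simp [ip_sum]
      have h4 : ip (0 : Mat 11) 0 = 0 := by simp [ip_sum]
      linarith
    · have := hL.2 _ h
      linarith

/-- padding of potentials -/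
def extV : (Fin 11 → ℝ) →ₗ[ℝ] (Fin (11 + r) → ℝ) where
  toFun v := Fin.append v (fun _ => (0 : ℝ))
  map_add' v w := by
    ext j
    refine Fin.addCases (fun j => ?_) (fun j => ?_) j <;> simp
  map_smul' c v := by
    ext j
    refine Fin.addCases (fun j => ?_) (fun j => ?_) j <;> simp

theorem pad_smooth {u : (Fin 2 → ℝ) → (Fin 11 → ℝ)} (hu : SmoothPeriodic u) :
    SmoothPeriodic (fun x => (extV (u x) : Fin (11 + r) → ℝ)) := by
  refine ⟨?_, fun x z => by simp only [hu.2 x z]⟩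
  exact (LinearMap.toContinuousLinearMap (extV (r := r))).contDiff.comp hu.1

theorem pad_grad {u : (Fin 2 → ℝ) → (Fin 11 → ℝ)} (hu : SmoothPeriodic u) (x : Fin 2 → ℝ) :
    grad (fun x => (extV (u x) : Fin (11 + r) → ℝ)) x = ext (grad u x) := by
  have hd : DifferentiableAt ℝ u x := (hu.1.differentiable (by simp)).differentiableAt
  have h := ((LinearMap.toContinuousLinearMap (extV (r := r))).hasFDerivAt (x := u x)).comp x
    hd.hasFDerivAt
  have h2 : fderiv ℝ (fun x => (extV (u x) : Fin (11 + r) → ℝ)) x =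
    (LinearMap.toContinuousLinearMap (extV (r := r))).comp (fderiv ℝ u x) := h.fderiv
  ext i j
  unfold grad
  rw [Matrix.of_apply, h2]
  refine Fin.addCases (fun j => ?_) (fun j => ?_) j
  · rw [ext_left]
    simp [extV]
  · rw [ext_right]
    simp [extV]

end Pad

/-! ## The pair of wells on `2 × 11` matrices -/

theorem base : ∃ (L₁ L₂ : Mat 11 →ₗ[ℝ] Mat 11) (F₁ F₂ F₀ : Mat 11),
    SelfAdjPosDef L₁ ∧ SelfAdjPosDef L₂ ∧
    (∃ u, SmoothPeriodic u ∧
      ∫ x in cell, (Wells.mk L₁ L₂ F₁ F₂ (1 / 100) (1 / 100)).energy (F₀ + grad u x) ≤ 4 / 5) ∧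
    ∃ g : Mat 11 → ℝ, RankOneConvex g ∧
      (∀ H, g H ≤ (Wells.mk L₁ L₂ F₁ F₂ (1 / 100) (1 / 100)).energy H) ∧ 208 / 243 ≤ g F₀ := by
  obtain ⟨KA, KB, hKA, hKB, hconv⟩ := TwoWell.GG_convexOn
  obtain ⟨k, K, hk, hK, hle⟩ := TwoWell.GG_le KA KB
  obtain ⟨L1, sym1, pd1, eq1⟩ := TwoWell.exists_well k K hk hK 1 (Or.inl rfl)
  obtain ⟨L2, sym2, pd2, eq2⟩ := TwoWell.exists_well k K hk hK (-1) (Or.inr rfl)
  obtain ⟨u, hu, hper, hint⟩ := TwoWell.Qside k K hk hK
  have hW : ∀ H : Mat 11,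
      (Wells.mk L1 L2 ((1 : ℝ) • TwoWell.Fst) ((-1 : ℝ) • TwoWell.Fst) (1 / 100) (1 / 100)).energy H
        = min (TwoWell.Wv k K 1 (TwoWell.pp H) (TwoWell.ss H))
            (TwoWell.Wv k K (-1) (TwoWell.pp H) (TwoWell.ss H)) := by
    intro H
    rw [← eq1 H, ← eq2 H]
    rfl
  refine ⟨L1, L2, (1 : ℝ) • TwoWell.Fst, (-1 : ℝ) • TwoWell.Fst, TwoWell.F0m, ⟨sym1, pd1⟩,
    ⟨sym2, pd2⟩, ⟨u, ⟨hu, hper⟩, ?_⟩,
    fun H => TwoWell.GG KA KB (TwoWell.pp H) (TwoWell.ss H), ?_, ?_, ?_⟩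
  · refine (le_of_eq ?_).trans hint
    apply integral_congr_ae
    exact Filter.Eventually.of_forall (fun x => hW _)
  · intro A a b
    have h := hconv (TwoWell.pp A) (TwoWell.ss A) _ _ (TwoWell.JM1b.R1_vecMulVec a b)
    have e : (fun t : ℝ => TwoWell.GG KA KB (TwoWell.pp (A + t • Matrix.vecMulVec a b))
        (TwoWell.ss (A + t • Matrix.vecMulVec a b))) =
        fun t : ℝ => TwoWell.GG KA KB (TwoWell.pp A + t • TwoWell.pp (Matrix.vecMulVec a b))
        (TwoWell.ss A + t • TwoWell.ss (Matrix.vecMulVec a b)) := by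
      funext t
      rw [TwoWell.pp_add_smul, TwoWell.ss_add_smul]
    show ConvexOn ℝ Set.univ (fun t : ℝ => TwoWell.GG KA KB
      (TwoWell.pp (A + t • Matrix.vecMulVec a b)) (TwoWell.ss (A + t • Matrix.vecMulVec a b)))
    rw [e]
    exact h
  · intro H
    rw [hW H]
    exact le_min (hle 1 (Or.inl rfl) _ _) (hle (-1) (Or.inr rfl) _ _)
  · show (208 / 243 : ℝ) ≤ TwoWell.GG KA KB (TwoWell.pp TwoWell.F0m) (TwoWell.ss TwoWell.F0m)
    rw [TwoWell.pp_F0m, TwoWell.ss_F0m]
    exact TwoWell.JR11.GG_val KA KB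

/-- the same for `m ≥ 11` columns -/
theorem base_ge {m : ℕ} (hm : 11 ≤ m) : ∃ (L₁ L₂ : Mat m →ₗ[ℝ] Mat m) (F₁ F₂ F₀ : Mat m),
    SelfAdjPosDef L₁ ∧ SelfAdjPosDef L₂ ∧
    (∃ u, SmoothPeriodic u ∧
      ∫ x in cell, (Wells.mk L₁ L₂ F₁ F₂ (1 / 100) (1 / 100)).energy (F₀ + grad u x) ≤ 4 / 5) ∧
    ∃ g : Mat m → ℝ, RankOneConvex g ∧
      (∀ H, g H ≤ (Wells.mk L₁ L₂ F₁ F₂ (1 / 100) (1 / 100)).energy H) ∧ 208 / 243 ≤ g F₀ := by
  obtain ⟨r, rfl⟩ := Nat.exists_eq_add_of_le hm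
  obtain ⟨L₁, L₂, F₁, F₂, F₀, h1, h2, ⟨u, hu, hi⟩, g, hg, hgW, hgF⟩ := base
  have key : ∀ (L : Mat 11 →ₗ[ℝ] Mat 11) (F : Mat 11) (H : Mat (11 + r)),
      ip (res H - F) (L (res H - F)) ≤ ip (H - ext F) (padL L (H - ext F)) := by
    intro L F H
    have h := tail_nonneg (H - ext F)
    rw [ip_padL]
    have e : res (H - ext F) = res H - F := by rw [map_sub, res_ext]
    rw [e] at h ⊢
    linarith
  have keq : ∀ (L : Mat 11 →ₗ[ℝ] Mat 11) (F H : Mat 11),
      ip ((ext H : Mat (11 + r)) - ext F) (padL L ((ext H : Mat (11 + r)) - ext F)) =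
        ip (H - F) (L (H - F)) := by
    intro L F H
    rw [← map_sub, ip_padL, ip_ext, res_ext]
    ring
  refine ⟨padL L₁, padL L₂, ext F₁, ext F₂, ext F₀, padL_spd h1, padL_spd h2,
    ⟨fun x => extV (u x), pad_smooth hu, ?_⟩, fun H => g (res H), ?_, ?_, ?_⟩
  · refine (le_of_eq ?_).trans hi
    apply integral_congr_ae
    refine Filter.Eventually.of_forall (fun x => ?_)
    simp only [Wells.energy]
    rw [pad_grad hu x, ← map_add, keq, keq]
  · intro A a b
    have h := hg (res A) a (fun j => b (Fin.castAdd r j))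
    have e : ∀ t : ℝ, res (A + t • Matrix.vecMulVec a b) =
      res A + t • Matrix.vecMulVec a (fun j => b (Fin.castAdd r j)) := by
      intro t
      ext i j
      simp [res_apply, Matrix.vecMulVec_apply]
    simp only [e]
    exact h
  · intro H
    refine (hgW (res H)).trans (min_le_min ?_ ?_)
    · exact add_le_add (key _ _ _) le_rfl
    · exact add_le_add (key _ _ _) le_rfl
  · show 208 / 243 ≤ g (res (ext F₀ : Mat (11 + r)))
    rw [res_ext]
    exact hgF

/-! ## The result -/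

theorem continuous_energy {m : ℕ} (D : Wells m) : Continuous D.energy := by
  unfold Wells.energy
  have h : ∀ (L : Mat m →ₗ[ℝ] Mat m) (F : Mat m) (k : ℝ),
      Continuous fun H : Mat m => ip (H - F) (L (H - F)) + k := fun L F k =>
    (continuous_ip (continuous_id.sub continuous_const)
      ((continuous_lin L).comp (continuous_id.sub continuous_const))).add continuous_const
  exact (h _ _ _).min (h _ _ _)

theorem continuous_grad {m : ℕ} {u : (Fin 2 → ℝ) → (Fin m → ℝ)} (hu : SmoothPeriodic u) :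
    Continuous (grad u) := by
  have h := hu.1.continuous_fderiv (by simp)
  refine continuous_matrix fun i j => ?_
  exact (continuous_apply j).comp (h.clm_apply continuous_const)

theorem integrable_energy {m : ℕ} (D : Wells m) (F : Mat m) {u : (Fin 2 → ℝ) → (Fin m → ℝ)}
    (hu : SmoothPeriodic u) : IntegrableOn (fun x => D.energy (F + grad u x)) cell :=
  ((continuous_energy D).comp (continuous_const.add (continuous_grad hu))).continuousOn.integrableOn_compact
    (isCompact_univ_pi fun _ => isCompact_Icc)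

theorem ip_sub_le {m : ℕ} (U V : Mat m) :
    ip (U - V) (U - V) ≤ 2 * ip U U + 2 * ip V V := by
  have h := ip_self_nonneg (U + V)
  simp only [ip_add_left, ip_add_right, ip_sub_left, ip_sub_right, ip_comm V U] at h ⊢
  linarith

theorem min_aux {a b a' b' : ℝ} (h1 : a' ≤ 101 / 100 * a + 1 / 100)
    (h2 : b' ≤ 101 / 100 * b + 1 / 100) : min a' b' ≤ 101 / 100 * min a b + 1 / 100 := by
  rcases le_total a b with h | h
  · rw [min_eq_left h]; exact (min_le_left _ _).trans h1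
  · rw [min_eq_right h]; exact (min_le_right _ _).trans h2

theorem spd_nonneg {m : ℕ} {L : Mat m →ₗ[ℝ] Mat m} (hL : SelfAdjPosDef L) (A : Mat m) :
    0 ≤ ip A (L A) := by
  by_cases h : A = 0
  · subst h; simp [ip_sum]
  · exact (hL.2 A h).le

/-- For every `m ≥ 11` there is an open set of admissible two-well data and of matrices `F` on
which the quasiconvexification is smaller than the rank-one convexification. -/
theorem result (m : ℕ) (hm : 11 ≤ m) :
    ∃ (D : Wells m) (F : Mat m) (ε : ℝ), D.Admissible ∧ 0 < ε ∧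
      ∀ (D' : Wells m) (F' : Mat m), D'.Admissible → D.Close ε D' →
        ip (F' - F) (F' - F) ≤ ε ^ 2 →
        QW D'.energy F' + 1 / 100 ≤ RW D'.energy F' := by
  obtain ⟨L₁, L₂, F₁, F₂, F₀, h1, h2, ⟨u, hu, hi⟩, g, hg, hgW, hgF⟩ := base_ge hm
  obtain ⟨c₁, hc₁, hlow₁⟩ := lower h1
  obtain ⟨c₂, hc₂, hlow₂⟩ := lower h2
  obtain ⟨C₁, hC₁, hup₁⟩ := upper L₁
  obtain ⟨C₂, hC₂, hup₂⟩ := upper L₂
  set c : ℝ := min (min c₁ c₂) 1 with hc
  set C : ℝ := max C₁ C₂ with hC
  have c0 : 0 < c := lt_min (lt_min hc₁ hc₂) one_pos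
  have c1 : c ≤ 1 := min_le_right _ _
  have C1 : 1 ≤ C := hC₁.trans (le_max_left _ _)
  have C0 : 0 < C := by linarith
  have low₁ : ∀ A, c * ip A A ≤ ip A (L₁ A) := fun A =>
    (mul_le_mul_of_nonneg_right ((min_le_left _ _).trans (min_le_left _ _))
      (ip_self_nonneg A)).trans (hlow₁ A)
  have low₂ : ∀ A, c * ip A A ≤ ip A (L₂ A) := fun A =>
    (mul_le_mul_of_nonneg_right ((min_le_left _ _).trans (min_le_right _ _))
      (ip_self_nonneg A)).trans (hlow₂ A)
  have up₁ : ∀ A, ip (L₁ A) (L₁ A) ≤ C * ip A A := fun A =>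
    (hup₁ A).trans (mul_le_mul_of_nonneg_right (le_max_left _ _) (ip_self_nonneg A))
  have up₂ : ∀ A, ip (L₂ A) (L₂ A) ≤ C * ip A A := fun A =>
    (hup₂ A).trans (mul_le_mul_of_nonneg_right (le_max_right _ _) (ip_self_nonneg A))
  obtain ⟨ε, hε⟩ : ∃ ε : ℝ, ε = c / (1000000 * C) := ⟨_, rfl⟩
  have e0 : 0 < ε := by rw [hε]; positivity
  have e2 : ε * (1000000 * C) ≤ c := by
    rw [hε]
    exact le_of_eq (div_mul_cancel₀ c (by positivity))
  have e1 : ε ≤ 1 / 1000000 := by nlinarith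
  set D : Wells m := Wells.mk L₁ L₂ F₁ F₂ (1 / 100) (1 / 100) with hD
  refine ⟨D, F₀, ε, ⟨h1, h2⟩, e0, ?_⟩
  rintro D' F' ⟨a1, a2⟩ ⟨b1, b2, b3, b4, b5, b6⟩ hF
  have k1 := abs_le.1 b5
  have k2 := abs_le.1 b6
  have kD1 : D.k₁ = 1 / 100 := rfl
  have kD2 : D.k₂ = 1 / 100 := rfl
  rw [kD1] at k1
  rw [kD2] at k2
  -- the comparison
  have B1 : ip ((F' - F₀) - (D'.F₁ - D.F₁)) ((F' - F₀) - (D'.F₁ - D.F₁)) ≤ 4 * ε ^ 2 := by
    have := ip_sub_le (F' - F₀) (D'.F₁ - D.F₁)
    linarith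
  have B2 : ip ((F' - F₀) - (D'.F₂ - D.F₂)) ((F' - F₀) - (D'.F₂ - D.F₂)) ≤ 4 * ε ^ 2 := by
    have := ip_sub_le (F' - F₀) (D'.F₂ - D.F₂)
    linarith
  have cmp : ∀ X : Mat m, D'.energy (X + (F' - F₀)) ≤ 101 / 100 * D.energy X + 1 / 100 ∧
      D.energy X ≤ 101 / 100 * D'.energy (X + (F' - F₀)) + 1 / 100 := by
    intro X
    have p1 := perturb (L' := D'.L₁) h1.1 c0 c1 C1 low₁ up₁ e0 e1 e2 b1 (X - D.F₁) _ B1
    have p2 := perturb (L' := D'.L₂) h2.1 c0 c1 C1 low₂ up₂ e0 e1 e2 b2 (X - D.F₂) _ B2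
    have q1 : (X - D.F₁) + ((F' - F₀) - (D'.F₁ - D.F₁)) = X + (F' - F₀) - D'.F₁ := by abel
    have q2 : (X - D.F₂) + ((F' - F₀) - (D'.F₂ - D.F₂)) = X + (F' - F₀) - D'.F₂ := by abel
    rw [q1] at p1
    rw [q2] at p2
    have r1 : D.L₁ = L₁ := rfl
    have r2 : D.L₂ = L₂ := rfl
    constructor
    · refine min_aux ?_ ?_
      · rw [kD1, r1]; linarith [p1.1, k1.2]
      · rw [kD2, r2]; linarith [p2.1, k2.2]
    · refine min_aux ?_ ?_
      · rw [kD1, r1]; linarith [p1.2, k1.1]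
      · rw [kD2, r2]; linarith [p2.2, k2.1]
  have nonneg : ∀ H, 0 ≤ D'.energy H := fun H => le_min
    (add_nonneg (spd_nonneg a1 _) (by linarith [k1.1]))
    (add_nonneg (spd_nonneg a2 _) (by linarith [k2.1]))
  -- the quasiconvexification
  have hQ : QW D'.energy F' ≤ 101 / 100 * (4 / 5) + 1 / 100 := by
    have hq : QW D'.energy F' ≤ ∫ x in cell, D'.energy (F' + grad u x) := by
      refine csInf_le ⟨0, ?_⟩ ⟨u, hu, rfl⟩
      rintro q ⟨v, _, rfl⟩
      exact integral_nonneg fun x => nonneg _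
    refine hq.trans ?_
    have hle : ∫ x in cell, D'.energy (F' + grad u x) ≤
        ∫ x in cell, (101 / 100 * D.energy (F₀ + grad u x) + 1 / 100) := by
      refine integral_mono (integrable_energy D' F' hu)
        (((integrable_energy D F₀ hu).const_mul _).add (TwoWell.integrable_Sq2 _
          continuous_const)) fun x => ?_
      have := (cmp (F₀ + grad u x)).1
      rwa [show F₀ + grad u x + (F' - F₀) = F' + grad u x by abel] at this
    refine hle.trans ?_
    rw [integral_add ((integrable_energy D F₀ hu).const_mul _) (TwoWell.integrable_Sq2 _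
          continuous_const), integral_const_mul]
    have hc1 : ∫ _x in cell, (1 / 100 : ℝ) = 1 / 100 := TwoWell.int_const_Sq2 _
    rw [hc1]
    linarith
  -- the rank-one convexification
  have hR : 100 / 101 * (208 / 243 - 1 / 100) ≤ RW D'.energy F' := by
    have hval : 100 / 101 * (208 / 243 - 1 / 100) ≤ 100 / 101 * (g (F' - (F' - F₀)) - 1 / 100) := by
      rw [sub_sub_cancel]
      linarith
    refine hval.trans (le_csSup ⟨D'.energy F', ?_⟩
      ⟨fun H => 100 / 101 * (g (H - (F' - F₀)) - 1 / 100), ?_, ?_, rfl⟩)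
    · rintro r ⟨g', _, hg', rfl⟩
      exact hg' _
    · intro A a b
      have h := hg (A - (F' - F₀)) a b
      have e : ∀ t : ℝ, A + t • Matrix.vecMulVec a b - (F' - F₀) =
        A - (F' - F₀) + t • Matrix.vecMulVec a b := fun t => by abel
      simp only [e]
      exact (h.sub (concaveOn_const _ convex_univ)).smul (by norm_num)
    · intro H
      have h3 := (cmp (H - (F' - F₀))).2
      rw [sub_add_cancel] at h3
      have h4 := hgW (H - (F' - F₀))
      show 100 / 101 * (g (H - (F' - F₀)) - 1 / 100) ≤ D'.energy H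
      linarith
  refine le_trans (add_le_add hQ le_rfl) (le_trans ?_ hR)
  norm_num

end Pool.Agent.Results.MP_0febd9_an.OpenSetOfWells
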